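import Mathlib
import Pool.Agent.H.MP_03b7b7_gt.B

set_option autoImplicit false

namespace Pool.Agent.Results.MP_03b7b7_gt.Busemann

open MeasureTheory

theorem result : ∃ F : (ℝ × ℝ) × (ℝ × ℝ) → ℝ,
    Continuous F ∧
    (∀ z, 0 ≤ F z) ∧
    ContDiffOn ℝ ((⊤ : ℕ∞) : WithTop ℕ∞) F {z | z.2 ≠ 0} ∧
    (∀ p v : ℝ × ℝ, F ((p.1, p.2 + 2 * Real.pi), v) = F (p, v)) ∧
    (∀ p v : ℝ × ℝ, ∀ c : ℝ, 0 < c → F (p, c • v) = c * F (p, v)) ∧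
    (∀ p v w : ℝ × ℝ, v ≠ 0 → w ≠ 0 →
      0 < fderiv ℝ (fderiv ℝ (fun u : ℝ × ℝ => F (p, u) ^ 2)) v w w) ∧
    (∃ p v : ℝ × ℝ, F (p, -v) ≠ F (p, v)) ∧
    (∀ x v : ℝ × ℝ, v ≠ 0 → ∃ γ : ℝ → ℝ × ℝ, ContDiff ℝ 2 γ ∧ γ 0 = x ∧ deriv γ 0 = v ∧
      (∀ t, deriv γ t ≠ 0) ∧ ∀ t : ℝ,
        deriv (fun s => fderiv ℝ (fun u : ℝ × ℝ => F (γ s, u) ^ 2) (deriv γ s)) t
          = fderiv ℝ (fun q : ℝ × ℝ => F (q, deriv γ t) ^ 2) (γ t)) ∧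
    (∫⁻ x in (Set.univ : Set ℝ) ×ˢ Set.Ico (0 : ℝ) (2 * Real.pi),
        ENNReal.ofReal Real.pi / volume {v : ℝ × ℝ | F (x, v) ≤ 1}) < ⊤ ∧
    ¬ ∃ γ : ℝ → ℝ × ℝ, ∃ T : ℝ, ∃ k : ℤ,
        ContDiff ℝ 2 γ ∧ 0 < T ∧ (∀ t, deriv γ t ≠ 0) ∧
        (∀ t, γ (t + T) = γ t + ((0 : ℝ), 2 * Real.pi * (k : ℝ))) ∧
        ∀ t : ℝ,
          deriv (fun s => fderiv ℝ (fun u : ℝ × ℝ => F (γ s, u) ^ 2) (deriv γ s)) t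
            = fderiv ℝ (fun q : ℝ × ℝ => F (q, deriv γ t) ^ 2) (γ t) :=
  Pool.Agent.H.MP_03b7b7_gt.main

end Pool.Agent.Results.MP_03b7b7_gt.Busemann
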